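import Pool.Agent.V5helper30.WL.Stm

/-!
# Project WL: the job SP

The products `(X a - X b) ^ A * (X c - X e) ^ B` for the three matchings of four variables.
-/

set_option autoImplicit false

open MvPolynomial

namespace Pool.Agent.V5helper95.WL

open Pool.Agent.Helper720.Pow Pool.Agent.V5helper30.WL

variable {K : Type*} [Field K]

/-- the sum of the partial derivatives -/
noncomputable def dd (f : MvPolynomial (Fin 4) K) : MvPolynomial (Fin 4) K := ∑ c, pderiv c f

lemma dd_mul (f g : MvPolynomial (Fin 4) K) : dd (f * g) = dd f * g + f * dd g := by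
  unfold dd
  rw [Finset.sum_mul, Finset.mul_sum, ← Finset.sum_add_distrib]
  refine Finset.sum_congr rfl fun c _ => ?_
  rw [pderiv_mul]

lemma dd_pow {f : MvPolynomial (Fin 4) K} (h : dd f = 0) (n : ℕ) : dd (f ^ n) = 0 := by
  induction n with
  | zero =>
    rw [pow_zero]
    unfold dd
    refine Finset.sum_eq_zero fun c _ => ?_
    exact pderiv_one
  | succ n ih => rw [pow_succ, dd_mul, ih, h, zero_mul, mul_zero, add_zero]

lemma dd_X (a : Fin 4) : dd (X a : MvPolynomial (Fin 4) K) = 1 := by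
  unfold dd
  rw [Finset.sum_eq_single a]
  · exact pderiv_X_self a
  · intro b _ hb
    exact pderiv_X_of_ne (Ne.symm hb)
  · intro h
    exact absurd (Finset.mem_univ _) h

lemma dd_sub (f g : MvPolynomial (Fin 4) K) : dd (f - g) = dd f - dd g := by
  unfold dd
  rw [← Finset.sum_sub_distrib]
  refine Finset.sum_congr rfl fun c _ => ?_
  rw [map_sub]

/-- the product of two powers of differences -/
noncomputable def gg (K : Type*) [Field K] (a b c e : Fin 4) (A B : ℕ) :
    MvPolynomial (Fin 4) K := (X a - X b) ^ A * (X c - X e) ^ B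

lemma dd_gg (a b c e : Fin 4) (A B : ℕ) : dd (gg K a b c e A B) = 0 := by
  unfold gg
  rw [dd_mul, dd_pow, dd_pow, zero_mul, mul_zero, add_zero]
  · rw [dd_sub, dd_X, dd_X, sub_self]
  · rw [dd_sub, dd_X, dd_X, sub_self]

lemma gg_hom (a b c e : Fin 4) (A B : ℕ) : (gg K a b c e A B).IsHomogeneous (A + B) := by
  have h1 : ∀ x y : Fin 4, (X x - X y : MvPolynomial (Fin 4) K).IsHomogeneous 1 := fun x y =>
    (isHomogeneous_X K x).sub (isHomogeneous_X K y)
  have h2 := ((h1 a b).pow A).mul ((h1 c e).pow B)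
  rw [one_mul, one_mul] at h2
  exact h2

/-- A difference of two variables of the weight `r` is homogeneous of weight `r`. -/
lemma wh (w : Fin 4 → ℕ) {x y : Fin 4} {r : ℕ} (hx : w x = r) (hy : w y = r) (n : ℕ) :
    IsWeightedHomogeneous w ((X x - X y : MvPolynomial (Fin 4) K) ^ n) (n * r) := by
  have h1 : IsWeightedHomogeneous w (X x : MvPolynomial (Fin 4) K) r := by
    have := isWeightedHomogeneous_X K w x
    rwa [hx] at this
  have h2 : IsWeightedHomogeneous w (X y : MvPolynomial (Fin 4) K) r := by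
    have := isWeightedHomogeneous_X K w y
    rwa [hy] at this
  have h3 : IsWeightedHomogeneous w (X x - X y : MvPolynomial (Fin 4) K) r := by
    intro m hm
    rw [coeff_sub] at hm
    by_cases h4 : coeff m (X x : MvPolynomial (Fin 4) K) = 0
    · rw [h4, zero_sub] at hm
      exact h2 (neg_ne_zero.1 hm)
    · exact h1 h4
  have h5 := h3.pow n
  rwa [smul_eq_mul] at h5

/-- The monomials of the product have the degree `A` in the variables `a`, `b`. -/
lemma supp (w : Fin 4 → ℕ) {a b c e : Fin 4} (ha : w a = 1) (hb : w b = 1) (hc : w c = 0)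
    (he : w e = 0) {A B : ℕ} {m : Fin 4 →₀ ℕ} (hm : coeff m (gg K a b c e A B) ≠ 0) :
    ∑ j, m j * w j = A := by
  have h1 := (wh (K := K) w ha hb A).mul (wh (K := K) w hc he B)
  have h2 := h1 hm
  rw [Finsupp.weight_apply, Finsupp.sum_fintype _ _ (by simp)] at h2
  simp only [smul_eq_mul] at h2
  omega

lemma gg_comm (a b c e : Fin 4) (A B : ℕ) : gg K a b c e A B = gg K c e a b B A := mul_comm _ _

lemma coeff_left {a b : Fin 4} (_hab : a ≠ b) (Q : MvPolynomial (Fin 4) K) (A : ℕ) :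
    ∀ w : Fin 4 →₀ ℕ, w a = 0 → A ≤ w b →
      coeff w ((X a - X b) ^ A * Q) = (-1) ^ A * coeff (w - Finsupp.single b A) Q := by
  induction A with
  | zero =>
    intro w _ _
    rw [pow_zero, one_mul, Finsupp.single_zero, tsub_zero, pow_zero, one_mul]
  | succ A ih =>
    intro w hw hA
    have h1 : (w - Finsupp.single b 1 : Fin 4 →₀ ℕ) a = 0 := by
      rw [Finsupp.tsub_apply, hw, Nat.zero_sub]
    have h2 : A ≤ (w - Finsupp.single b 1 : Fin 4 →₀ ℕ) b := by
      rw [Finsupp.tsub_apply, Finsupp.single_eq_same]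
      omega
    rw [pow_succ', mul_assoc, sub_mul, coeff_sub, coeff_X_mul', coeff_X_mul', if_neg (by simpa using hw),
      if_pos (by rw [Finsupp.mem_support_iff]; omega), zero_sub, ih _ h1 h2, tsub_tsub,
      ← Finsupp.single_add, add_comm 1 A, pow_succ]
    ring

lemma coeff_right {c e : Fin 4} (hce : c ≠ e) (B : ℕ) :
    coeff (Finsupp.single c 1 + Finsupp.single e B)
      ((X c - X e : MvPolynomial (Fin 4) K) ^ (B + 1)) = (-1) ^ B * ((B : K) + 1) := by
  induction B with
  | zero =>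
    have h1 : ¬ (Finsupp.single e 1 : Fin 4 →₀ ℕ) = Finsupp.single c 1 := fun h =>
      hce (Finsupp.single_left_injective one_ne_zero h).symm
    rw [zero_add, pow_one, Finsupp.single_zero, add_zero, coeff_sub, coeff_X, coeff_X, if_pos rfl,
      if_neg h1]
    simp
  | succ B ih =>
    have h1 : (Finsupp.single c 1 + Finsupp.single e (B + 1) : Fin 4 →₀ ℕ) - Finsupp.single c 1 =
        Finsupp.single e (B + 1) := add_tsub_cancel_left _ _
    have h2 : (Finsupp.single c 1 + Finsupp.single e (B + 1) : Fin 4 →₀ ℕ) - Finsupp.single e 1 =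
        Finsupp.single c 1 + Finsupp.single e B := by
      rw [Finsupp.single_add, ← add_assoc, add_tsub_cancel_right]
    have h3 : c ∈ (Finsupp.single c 1 + Finsupp.single e (B + 1) : Fin 4 →₀ ℕ).support := by
      rw [Finsupp.mem_support_iff, Finsupp.add_apply, Finsupp.single_eq_same]
      omega
    have h4 : e ∈ (Finsupp.single c 1 + Finsupp.single e (B + 1) : Fin 4 →₀ ℕ).support := by
      rw [Finsupp.mem_support_iff, Finsupp.add_apply, Finsupp.single_eq_same]
      omega
    have h5 := coeff_left (K := K) hce 1 (B + 1) (Finsupp.single e (B + 1))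
      (by rw [Finsupp.single_eq_of_ne hce]) (by rw [Finsupp.single_eq_same])
    rw [mul_one, tsub_self, coeff_zero_one, mul_one] at h5
    rw [pow_succ', sub_mul, coeff_sub, coeff_X_mul', coeff_X_mul', if_pos h3, if_pos h4, h1, h2, ih,
      h5]
    push_cast
    ring

/-- The three matchings `0 b | c e`. -/
def mb : Fin 3 → Fin 4 := ![1, 2, 3]

def mc : Fin 3 → Fin 4 := ![2, 1, 1]

def me : Fin 3 → Fin 4 := ![3, 3, 2]

/-- The monomial `X_b ^ A * X_c * X_e ^ B`. -/
noncomputable def mon (j : Fin 3) (A B : ℕ) : Fin 4 →₀ ℕ :=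
  Finsupp.single (mb j) A + (Finsupp.single (mc j) 1 + Finsupp.single (me j) B)

lemma coeff_own [CharZero K] (j : Fin 3) (A B : ℕ) :
    coeff (mon j A B) (gg K 0 (mb j) (mc j) (me j) A (B + 1)) ≠ 0 := by
  have h0 : (0 : Fin 4) ≠ mb j := by fin_cases j <;> decide
  have h1 : mc j ≠ me j := by fin_cases j <;> decide
  have h2 : mb j ≠ mc j := by fin_cases j <;> decide
  have h3 : mb j ≠ me j := by fin_cases j <;> decide
  have h4 : (0 : Fin 4) ≠ mc j := by fin_cases j <;> decide
  have h5 : (0 : Fin 4) ≠ me j := by fin_cases j <;> decide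
  unfold gg
  rw [coeff_left h0]
  · unfold mon
    rw [add_tsub_cancel_left, coeff_right h1]
    have h6 : (B : K) + 1 ≠ 0 := Nat.cast_add_one_ne_zero B
    refine mul_ne_zero (pow_ne_zero _ (neg_ne_zero.2 one_ne_zero)) (mul_ne_zero
      (pow_ne_zero _ (neg_ne_zero.2 one_ne_zero)) h6)
  · unfold mon
    rw [Finsupp.add_apply, Finsupp.add_apply, Finsupp.single_eq_of_ne h0,
      Finsupp.single_eq_of_ne h4, Finsupp.single_eq_of_ne h5, add_zero, add_zero]
  · unfold mon
    rw [Finsupp.add_apply, Finsupp.single_eq_same]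
    exact Nat.le_add_right _ _

/-- The weight which counts the variables `0`, `b`. -/
def wt (j : Fin 3) (x : Fin 4) : ℕ := if x = 0 ∨ x = mb j then 1 else 0

lemma sum_wt (m : Fin 4 →₀ ℕ) (j : Fin 3) : ∑ x, m x * wt j x = m 0 + m (mb j) := by
  rw [Fin.sum_univ_four]
  fin_cases j <;> simp [wt, mb]

lemma supp1 {j : Fin 3} {A B : ℕ} {m : Fin 4 →₀ ℕ}
    (hm : coeff m (gg K 0 (mb j) (mc j) (me j) A B) ≠ 0) : m 0 + m (mb j) = A := by
  rw [← sum_wt m j]
  refine supp (wt j) ?_ ?_ ?_ ?_ hm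
  · fin_cases j <;> decide
  · fin_cases j <;> decide
  · fin_cases j <;> decide
  · fin_cases j <;> decide

/-- The weight which counts the variables `c`, `e`. -/
def wt' (j : Fin 3) (x : Fin 4) : ℕ := if x = mc j ∨ x = me j then 1 else 0

lemma sum_wt' (m : Fin 4 →₀ ℕ) (j : Fin 3) : ∑ x, m x * wt' j x = m (mc j) + m (me j) := by
  rw [Fin.sum_univ_four]
  fin_cases j <;> simp [wt', mc, me]

lemma supp2 {j : Fin 3} {A B : ℕ} {m : Fin 4 →₀ ℕ}
    (hm : coeff m (gg K 0 (mb j) (mc j) (me j) A B) ≠ 0) : m (mc j) + m (me j) = B := by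
  rw [← sum_wt' m j]
  rw [gg_comm] at hm
  refine supp (wt' j) ?_ ?_ ?_ ?_ hm
  · fin_cases j <;> decide
  · fin_cases j <;> decide
  · fin_cases j <;> decide
  · fin_cases j <;> decide

lemma fl_four (d : ℕ) (m : Fin 4 →₀ ℕ) (j : Fin 3) :
    fl d m = (m 0 / d + m (mb j) / d) + (m (mc j) / d + m (me j) / d) := by
  unfold fl
  rw [Fin.sum_univ_four]
  fin_cases j <;> simp [mb, mc, me] <;> ring

lemma fl_lt {d k : ℕ} (hd : 1 ≤ d) {j : Fin 3} {α : ℕ} (hα : α < k) {m : Fin 4 →₀ ℕ}
    (hm : coeff m (gg K 0 (mb j) (mc j) (me j) (d * α + (d - 1)) (d * (k - 1 - α) + (d - 1))) ≠ 0) :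
    fl d m < k := by
  have h1 := supp1 hm
  have h2 := supp2 hm
  rw [fl_four d m j]
  have h3 : m 0 / d + m (mb j) / d ≤ α := by
    refine Nat.div_add_div_le_add_div.trans ?_
    rw [h1, Nat.mul_add_div (by omega), Nat.div_eq_of_lt (by omega), add_zero]
  have h4 : m (mc j) / d + m (me j) / d ≤ k - 1 - α := by
    refine Nat.div_add_div_le_add_div.trans ?_
    rw [h2, Nat.mul_add_div (by omega), Nat.div_eq_of_lt (by omega), add_zero]
  omega

/-- The monomial of the polynomial number `(j, α)` appears in no other polynomial. -/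
lemma excl {d k : ℕ} (hd : 3 ≤ d) {j j' : Fin 3} {α α' : ℕ}
    (h : coeff (mon j (d * α + (d - 1)) (d * (k - 1 - α) + (d - 2)))
      (gg K 0 (mb j') (mc j') (me j') (d * α' + (d - 1)) (d * (k - 1 - α') + (d - 1))) ≠ 0) :
    j = j' ∧ α = α' := by
  have h1 := supp1 h
  have h2 : ∀ β : ℕ, d * β + (d - 2) ≠ d * α' + (d - 1) := by
    intro β hβ
    rcases le_or_gt β α' with h3 | h3
    · have := Nat.mul_le_mul_left d h3
      omega
    · have := Nat.mul_le_mul_left d (show α' + 1 ≤ β from h3)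
      rw [mul_add, mul_one] at this
      omega
  have h3 : 1 ≠ d * α' + (d - 1) := by
    have := Nat.zero_le (d * α')
    omega
  have h4 : ∀ β : ℕ, d * α + (d - 1) = d * β + (d - 1) → α = β := by
    intro β hβ
    have h5 : d * α = d * β := by omega
    exact Nat.eq_of_mul_eq_mul_left (by omega) h5
  have h6 := h2 (k - 1 - α)
  unfold mon at h1
  simp only [Finsupp.add_apply] at h1
  fin_cases j <;> fin_cases j' <;>
    simp [mb, mc, me, Finsupp.single_apply] at h1 ⊢ <;> first | exact h4 _ h1 | omega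

/-- The polynomial number `(j, α)`. -/
noncomputable def ff (K : Type*) [Field K] (d k : ℕ) (t : Fin 3 × Fin k) :
    MvPolynomial (Fin 4) K :=
  gg K 0 (mb t.1) (mc t.1) (me t.1) (d * t.2 + (d - 1)) (d * (k - 1 - t.2) + (d - 1))

lemma ff_indep [CharZero K] {d k : ℕ} (hd : 3 ≤ d) : LinearIndependent K (ff K d k) := by
  rw [Fintype.linearIndependent_iff]
  intro g hg t
  have h1 := congrArg (coeff (mon t.1 (d * t.2 + (d - 1)) (d * (k - 1 - t.2) + (d - 2)))) hg
  rw [coeff_sum, coeff_zero, Finset.sum_eq_single t] at h1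
  · rw [coeff_smul, smul_eq_mul] at h1
    refine (mul_eq_zero.1 h1).resolve_right ?_
    have h2 := coeff_own (K := K) t.1 (d * t.2 + (d - 1)) (d * (k - 1 - t.2) + (d - 2))
    have h3 : d * (k - 1 - t.2) + (d - 2) + 1 = d * (k - 1 - t.2) + (d - 1) := by omega
    rw [h3] at h2
    exact h2
  · intro t' _ ht'
    rw [coeff_smul, smul_eq_mul]
    by_contra hne
    have h2 := excl hd (right_ne_zero_of_mul hne)
    exact ht' (Prod.ext h2.1.symm (Fin.ext h2.2.symm))
  · intro h
    exact absurd (Finset.mem_univ _) h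

theorem gen [CharZero K] (h : S_DUAL K) {d k i : ℕ} (hd : 3 ≤ d) (hk : 1 ≤ k)
    (hi : i + 1 = d * (k - 1) + (d - 1) + (d - 1)) (hinj : InjAt K 4 d k i 1) :
    (NN 4 d k i).card + 3 * k ≤ (NN 4 d k (i + 1)).card := by
  refine (h 4 d k i (3 * k) (fun t => ff K d k (finProdFinEquiv.symm t)) (by omega)
    ((ff_indep hd).comp _ finProdFinEquiv.symm.injective) (fun t => ?_) (fun t => dd_gg _ _ _ _ _ _)
    fun t m hm => fl_lt (by omega) (finProdFinEquiv.symm t).2.2 hm).1 hinj
  have h1 := gg_hom (K := K) 0 (mb (finProdFinEquiv.symm t).1) (mc (finProdFinEquiv.symm t).1)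
    (me (finProdFinEquiv.symm t).1) (d * (finProdFinEquiv.symm t).2 + (d - 1))
    (d * (k - 1 - (finProdFinEquiv.symm t).2) + (d - 1))
  have h2 : i + 1 = (d * ((finProdFinEquiv.symm t).2 : ℕ) + (d - 1)) +
      (d * (k - 1 - (finProdFinEquiv.symm t).2) + (d - 1)) := by
    have h3 : ((finProdFinEquiv.symm t).2 : ℕ) < k := (finProdFinEquiv.symm t).2.2
    have h4 : d * ((finProdFinEquiv.symm t).2 : ℕ) + d * (k - 1 - (finProdFinEquiv.symm t).2) =
        d * (k - 1) := by
      rw [← mul_add]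
      congr 1
      omega
    omega
  rw [h2]
  exact h1

theorem sp [CharZero K] (h : S_DUAL K) (hc : S_CARD) : S_SP K := by
  refine ⟨fun hi => ?_, fun hi => ?_, fun hi => ?_⟩
  · have h1 := gen h (by norm_num) (by norm_num) (by norm_num) hi
    have h2 := hc 4 3 3 9 (by norm_num) (by norm_num)
    have h3 := hc 4 3 3 (9 + 1) (by norm_num) (by norm_num)
    have h4 : ∑ j ∈ Finset.range 3, ((4 + j - 1).choose j : ℤ) * hh 3 4 (((9 : ℕ) : ℤ) - (3 : ℕ) * j) + 9 >
        ∑ j ∈ Finset.range 3, ((4 + j - 1).choose j : ℤ) * hh 3 4 (((9 + 1 : ℕ) : ℤ) - (3 : ℕ) * j) := by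
      decide +kernel
    omega
  · have h1 := gen h (by norm_num) (by norm_num) (by norm_num) hi
    have h2 := hc 4 5 2 12 (by norm_num) (by norm_num)
    have h3 := hc 4 5 2 (12 + 1) (by norm_num) (by norm_num)
    have h4 : ∑ j ∈ Finset.range 2, ((4 + j - 1).choose j : ℤ) * hh 5 4 (((12 : ℕ) : ℤ) - (5 : ℕ) * j) + 6 >
        ∑ j ∈ Finset.range 2, ((4 + j - 1).choose j : ℤ) * hh 5 4 (((12 + 1 : ℕ) : ℤ) - (5 : ℕ) * j) := by
      decide +kernel
    omega
  · have h1 := gen h (by norm_num) (by norm_num) (by norm_num) hi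
    have h2 := hc 4 6 2 15 (by norm_num) (by norm_num)
    have h3 := hc 4 6 2 (15 + 1) (by norm_num) (by norm_num)
    have h4 : ∑ j ∈ Finset.range 2, ((4 + j - 1).choose j : ℤ) * hh 6 4 (((15 : ℕ) : ℤ) - (6 : ℕ) * j) + 6 >
        ∑ j ∈ Finset.range 2, ((4 + j - 1).choose j : ℤ) * hh 6 4 (((15 + 1 : ℕ) : ℤ) - (6 : ℕ) * j) := by
      decide +kernel
    omega

end Pool.Agent.V5helper95.WL
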